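import Pool.Agent.Helper48.EC.KabPos
import Pool.Agent.Helper43.EC.AllPairs
import Pool.Agent.Helper56.EC.Atomic
import Pool.Agent.Helper23.EC.NotExposed
import Pool.Agent.Helper21.EC.FirstVar

/-!
MP_0db605_an, Q1 (exposed versus atomic condition): negative answer.  For `n = 4`, `k = 2` there is
a `k`-integrand `F` of class `C¹` that satisfies the atomic condition but for which some point of
the Gauss image is not an exposed point of its convex hull.
The definitions `Gr`, `colProj`, `jac`, `IsFirstVar`, `gaussImage`, `IsIntegrand`,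
`AtomicCondition`, `ExposedCondition` are in `Pool/Agent/Helper35/EC/Defs.lean`.
-/

namespace Pool.Agent.Results.MP_0db605_an.AtomicNotExposed

open EC Matrix

/-- Negative answer to Q1: for `n = 4`, `k = 2` (so `n - k ≥ 2`) there is a `k`-integrand `F` (for
which the first variation matrix `B_F(T)` exists and is unique at every `T`) such that `F` satisfies
the atomic condition `AC`, but some point of the Gauss image of `F` is not an exposed point of the
convex hull of the Gauss image; in particular `F` does not satisfy the exposed condition `EC`. -/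
theorem result : ∃ F : Matrix (Fin 4) (Fin 4) ℝ → ℝ,
    IsIntegrand 4 2 F ∧ (∀ T ∈ Gr 4 2, ∃! B, IsFirstVar 2 F T B) ∧
    AtomicCondition 4 2 F ∧ ¬ ExposedCondition 4 2 F ∧
    ∃ A ∈ gaussImage 4 2 F, A ∉ Set.exposedPoints ℝ (convexHull ℝ (gaussImage 4 2 F)) := by
  obtain ⟨ε, K, hε, hK, hh⟩ : ∃ ε K : ℝ, 0 < ε ∧ 10 ^ 15 ≤ K ∧ 10 ^ 60 * K ^ 40 * ε ^ 2 ≤ 1 := by
    obtain ⟨K, hK⟩ : ∃ K : ℝ, K = 10 ^ 15 := ⟨_, rfl⟩
    have hK1 : 1 ≤ K := by rw [hK]; norm_num
    have hc : 1 ≤ 10 ^ 60 * K ^ 40 := by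
      have : 1 ≤ K ^ 40 := one_le_pow₀ hK1
      nlinarith
    refine ⟨1 / (10 ^ 60 * K ^ 40), K, by positivity, hK.ge, ?_⟩
    have hc0 : (10 ^ 60 * K ^ 40) ≠ 0 := by positivity
    have : 10 ^ 60 * K ^ 40 * (1 / (10 ^ 60 * K ^ 40)) ^ 2 = 1 / (10 ^ 60 * K ^ 40) := by
      field_simp
    rw [this, div_le_one (by positivity)]
    exact hc
  have hK' : (10 : ℝ) ^ 10 ≤ K := le_trans (by norm_num) hK
  have hG := gaussImage_FF hε hK' hh
  have hT0 : T0 ∈ Gr 4 2 := Pm_mem_Gr 0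
  have hT1 : T1 ε ∈ Gr 4 2 := Pm_mem_Gr _
  have hpos : ∀ T ∈ Gr 4 2, ∀ T' ∈ Gr 4 2, T' ≠ T → ¬ (T = T0 ∧ T' = T1 ε) →
      0 < trace (Zof ε K T * Aof ε K T') := fun T hT T' hT' hne h01 =>
    cert_pos_of_Kab hε hK' hh (fun u y w z u' y' w' z' h1 h2 h3 h4 h5 h6 h7 h8 a b =>
      Kab_pos hK (by positivity) hh h1 h2 h3 h4 h5 h6 h7 h8 a b) hT hT' hne h01
  have hself0 : Aof ε K T0 * (1 - T0) = 0 := by
    rw [Aof_T0 hε, mul_sub, mul_one, hT0.2.1, sub_self]
  have hAC : AtomicCondition 4 2 (FF ε K) :=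
    atomic_of_cert hG (by norm_num) (fun T hT => rank_Aof hε hT)
      (fun T hT => one_sub_mul_Zof hε hT) (fun T hT => trace_Zof_self hε hT) hT0 hT1 hpos
      (cert_T0_T1 hε hK' hh) (Aof_T1_mul hε hK' hh) hself0
  have hex : Aof ε K T0 ∉ Set.exposedPoints ℝ (convexHull ℝ (gaussImage 4 2 (FF ε K))) := by
    rw [hG]; exact not_exposed hε hK' hh
  have hmem : Aof ε K T0 ∈ gaussImage 4 2 (FF ε K) := by
    rw [hG]; exact ⟨T0, hT0, rfl⟩
  refine ⟨FF ε K, FF_isIntegrand hε hK' hh, fun T hT => ⟨_, FF_firstVar hε hK' hh hT,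
    fun B hB => IsFirstVar.unique hT hB (FF_firstVar hε hK' hh hT)⟩, hAC, ?_, _, hmem, hex⟩
  intro hEC
  apply hex
  rw [← hEC.2]
  exact hmem

end Pool.Agent.Results.MP_0db605_an.AtomicNotExposed
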